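import Mathlib

set_option autoImplicit false

open Module

namespace Pool.Agent.Results.MP_6ebba1_al.NotDiagonalizable

/-- `U 0, ..., U d` is an ordering of the eigenspaces of the diagonalizable map `A`. -/
def IsEigenOrdering {K V : Type} [Field K] [AddCommGroup V] [Module K V]
    (A : Module.End K V) {d : ℕ} (U : Fin (d + 1) → Submodule K V) : Prop :=
  (∃ t : Fin (d + 1) → K, Function.Injective t ∧ ∀ i, U i = A.eigenspace (t i)) ∧
    (∀ i, U i ≠ ⊥) ∧ ⨆ i, U i = ⊤

/-- `B (U i) ⊆ U (i-1) + U i + U (i+1)`. -/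
def ActsTridiagonally {K V : Type} [Field K] [AddCommGroup V] [Module K V]
    (B : Module.End K V) {d : ℕ} (U : Fin (d + 1) → Submodule K V) : Prop :=
  ∀ i, (U i).map B ≤ ⨆ j : {j : Fin (d + 1) // j.val ≤ i.val + 1 ∧ i.val ≤ j.val + 1}, U j.val

/-- `A, B` is a tridiagonal pair on `V`, with the orderings `U`, `W` of the eigenspaces of
`A` and `B`. -/
def IsTDPair {K V : Type} [Field K] [AddCommGroup V] [Module K V]
    (A B : Module.End K V) {d : ℕ} (U W : Fin (d + 1) → Submodule K V) : Prop :=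
  IsEigenOrdering A U ∧ IsEigenOrdering B W ∧ ActsTridiagonally B U ∧ ActsTridiagonally A W ∧
    ∀ X : Submodule K V, X.map A ≤ X → X.map B ≤ X → X = ⊥ ∨ X = ⊤

/-- `S` is admissible: `S (U i) = U i` and `S (W 0 + ... + W i) = W d + ... + W (d-i)`. -/
def IsAdmissible {K V : Type} [Field K] [AddCommGroup V] [Module K V]
    (S : Module.End K V) {d : ℕ} (U W : Fin (d + 1) → Submodule K V) : Prop :=
  ∀ i, (U i).map S = U i ∧
    (⨆ j : {j : Fin (d + 1) // j.val ≤ i.val}, W j.val).map S
      = ⨆ j : {j : Fin (d + 1) // d - i.val ≤ j.val}, W j.val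

/-- `S` is diagonalizable over `K`: the eigenspaces span `V`. -/
def IsDiagonalizable {K V : Type} [Field K] [AddCommGroup V] [Module K V]
    (S : Module.End K V) : Prop := ⨆ a : K, S.eigenspace a = ⊤

/-- The negated form of the first part of Q2 over the field `K`. -/
def Fails (K : Type) [Field K] : Prop :=
  ∃ (V : Type) (_ : AddCommGroup V) (_ : Module K V) (_ : FiniteDimensional K V)
    (A B : Module.End K V) (d : ℕ) (U W : Fin (d + 1) → Submodule K V) (S : Module.End K V),
    IsTDPair A B U W ∧ IsAdmissible S U W ∧ ¬ IsDiagonalizable S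

section
variable {K : Type} [Field K] (c : K)

abbrev V4 (K : Type) : Type := (K × K) × (K × K)

/-- `A = [[J, (1-c)], [1, -J]]` with `J (x, y) = (c y, x)`. -/
def mA : Module.End K (V4 K) where
  toFun v := ((c * v.1.2 + (1 - c) * v.2.1, v.1.1 + (1 - c) * v.2.2),
    (v.1.1 - c * v.2.2, v.1.2 - v.2.1))
  map_add' u v := by ext <;> simp <;> ring
  map_smul' a v := by ext <;> simp <;> ring

def mB : Module.End K (V4 K) where
  toFun v := ((v.1.1, v.1.2), (-v.2.1, -v.2.2))
  map_add' u v := by ext <;> simp <;> ring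
  map_smul' a v := by ext <;> simp

def mS : Module.End K (V4 K) where
  toFun v := (((1 - c) * v.2.1, (1 - c) * v.2.2), (v.1.1 - 2 * c * v.2.2, v.1.2 - 2 * v.2.1))
  map_add' u v := by ext <;> simp <;> ring
  map_smul' a v := by ext <;> simp <;> ring

theorem mA_apply (v : V4 K) : mA c v = ((c * v.1.2 + (1 - c) * v.2.1, v.1.1 + (1 - c) * v.2.2),
    (v.1.1 - c * v.2.2, v.1.2 - v.2.1)) := rfl

theorem mB_apply (v : V4 K) : mB v = ((v.1.1, v.1.2), (-v.2.1, -v.2.2)) := rfl

theorem mS_apply (v : V4 K) : mS c v = (((1 - c) * v.2.1, (1 - c) * v.2.2),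
    (v.1.1 - 2 * c * v.2.2, v.1.2 - 2 * v.2.1)) := rfl

theorem mA_sq (v : V4 K) : mA c (mA c v) = v := by
  simp only [mA_apply]
  ext <;> simp <;> ring

theorem mB_sq (v : V4 K) : mB (mB v) = v := by
  simp only [mB_apply]
  ext <;> simp

theorem comm (v : V4 K) : mA c (mS c v) = mS c (mA c v) := by
  simp only [mA_apply, mS_apply]
  ext <;> simp <;> ring

def eU (A : Module.End K (V4 K)) : Fin 2 → Submodule K (V4 K) := fun i => A.eigenspace (if i = 0 then 1 else -1)

theorem iSup_fin2 (U : Fin 2 → Submodule K (V4 K)) : ⨆ i, U i = U 0 ⊔ U 1 := by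
  apply le_antisymm
  · apply iSup_le
    intro i
    fin_cases i
    · exact le_sup_left
    · exact le_sup_right
  · exact sup_le (le_iSup U 0) (le_iSup U 1)

theorem invol_sup (h2 : (2 : K) ≠ 0) (A : Module.End K (V4 K)) (hA : ∀ v, A (A v) = v) :
    ⨆ i, eU A i = ⊤ := by
  rw [iSup_fin2, eq_top_iff]
  intro v _
  rw [Submodule.mem_sup]
  refine ⟨(2 : K)⁻¹ • (v + A v), ?_, (2 : K)⁻¹ • (v - A v), ?_, ?_⟩
  · simp only [eU, if_pos, Module.End.mem_eigenspace_iff, map_smul, map_add, hA, one_smul]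
    rw [add_comm]
  · have : ¬ (1 : Fin 2) = 0 := by decide
    simp only [eU, if_neg this, Module.End.mem_eigenspace_iff, map_smul, map_sub, hA]
    rw [neg_one_smul, ← smul_neg, neg_sub]
  · rw [← smul_add, add_add_sub_cancel, ← two_smul K v, smul_smul, inv_mul_cancel₀ h2, one_smul]

theorem eigenOrd (h2 : (2 : K) ≠ 0) (A : Module.End K (V4 K)) (hA : ∀ v, A (A v) = v)
    (v w : V4 K) (hv : v + A v ≠ 0) (hw : w - A w ≠ 0) :
    IsEigenOrdering (d := 1) A (eU A) := by
  refine ⟨⟨fun i => if i = 0 then 1 else -1, ?_, fun i => rfl⟩, ?_, invol_sup h2 A hA⟩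
  · have h : (1 : K) ≠ -1 := by
      intro h; apply h2; linear_combination h
    intro i j hij
    fin_cases i <;> fin_cases j
    · rfl
    · simp at hij; exact absurd hij h
    · simp at hij; exact absurd hij.symm h
    · rfl
  · intro i
    fin_cases i
    · intro h0
      apply hv
      have : v + A v ∈ eU A 0 := by
        simp only [eU, if_pos, Module.End.mem_eigenspace_iff, map_add, hA, one_smul]
        rw [add_comm]
      have h0' : eU A 0 = ⊥ := h0
      rw [h0'] at this
      exact (Submodule.mem_bot K).mp this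
    · intro h0
      apply hw
      have h1 : ¬ (1 : Fin 2) = 0 := by decide
      have : w - A w ∈ eU A 1 := by
        simp only [eU, if_neg h1, Module.End.mem_eigenspace_iff, map_sub, hA]
        rw [neg_one_smul, neg_sub]
      have h0' : eU A 1 = ⊥ := h0
      rw [h0'] at this
      exact (Submodule.mem_bot K).mp this

theorem actsTri (A B : Module.End K (V4 K)) (hA : ⨆ i, eU A i = ⊤) :
    ActsTridiagonally (d := 1) B (eU A) := by
  intro i
  have : (⨆ j : {j : Fin (1 + 1) // j.val ≤ i.val + 1 ∧ i.val ≤ j.val + 1}, eU A j.val) = ⊤ := by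
    rw [eq_top_iff, ← hA]
    apply iSup_le
    intro j
    exact le_iSup (fun j : {j : Fin (1 + 1) // j.val ≤ i.val + 1 ∧ i.val ≤ j.val + 1} =>
      eU A j.val) ⟨j, by omega, by omega⟩
  rw [this]
  exact le_top

theorem mB_mem (h2 : (2 : K) ≠ 0) (X : Submodule K (V4 K)) (hB : X.map mB ≤ X) (x y z w : K)
    (h : ((x, y), (z, w)) ∈ X) : ((x, y), ((0 : K), (0 : K))) ∈ X ∧ (((0 : K), (0 : K)), (z, w)) ∈ X := by
  have h1 : mB ((x, y), (z, w)) ∈ X := hB ⟨_, h, rfl⟩
  constructor
  · have h3 := X.smul_mem (2 : K)⁻¹ (X.add_mem h h1)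
    have : (2 : K)⁻¹ • (((x, y), (z, w)) + mB ((x, y), (z, w))) = ((x, y), ((0 : K), (0 : K))) := by
      simp only [mB_apply]
      ext <;> simp
      · field_simp; ring
      · field_simp; ring
    rwa [this] at h3
  · have h3 := X.smul_mem (2 : K)⁻¹ (X.sub_mem h h1)
    have : (2 : K)⁻¹ • (((x, y), (z, w)) - mB ((x, y), (z, w))) = (((0 : K), (0 : K)), (z, w)) := by
      simp only [mB_apply]
      ext <;> simp
      · field_simp; ring
      · field_simp; ring
    rwa [this] at h3

theorem irr (h2 : (2 : K) ≠ 0) (hc : ¬ IsSquare c) (X : Submodule K (V4 K))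
    (hA : X.map (mA c) ≤ X) (hB : X.map mB ≤ X) : X = ⊥ ∨ X = ⊤ := by
  have c1 : 1 - c ≠ 0 := by
    intro h; apply hc; exact ⟨1, by linear_combination -h⟩
  -- first components
  have f1 : ∀ x y : K, ((x, y), ((0 : K), (0 : K))) ∈ X →
      ((c * y, x), ((0 : K), (0 : K))) ∈ X ∧ (((0 : K), (0 : K)), (x, y)) ∈ X := by
    intro x y h
    have h1 : mA c ((x, y), (0, 0)) ∈ X := hA ⟨_, h, rfl⟩
    rw [mA_apply] at h1
    simp only [mul_zero, add_zero, sub_zero] at h1
    exact mB_mem h2 X hB _ _ _ _ h1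
  have f2 : ∀ x y : K, (((0 : K), (0 : K)), (x, y)) ∈ X → ((x, y), ((0 : K), (0 : K))) ∈ X := by
    intro x y h
    have h1 : mA c ((0, 0), (x, y)) ∈ X := hA ⟨_, h, rfl⟩
    rw [mA_apply] at h1
    simp only [mul_zero, zero_add, zero_sub] at h1
    have h3 := (mB_mem h2 X hB _ _ _ _ h1).1
    have h4 := X.smul_mem (1 - c)⁻¹ h3
    have : (1 - c)⁻¹ • (((1 - c) * x, (1 - c) * y), ((0 : K), (0 : K))) = ((x, y), ((0 : K), (0 : K))) := by
      ext <;> simp
      · field_simp
      · field_simp
    rwa [this] at h4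
  by_cases hX : X = ⊥
  · exact Or.inl hX
  right
  obtain ⟨⟨⟨x, y⟩, ⟨z, w⟩⟩, hv, hv0⟩ := X.ne_bot_iff.mp hX
  -- find nonzero first component vector
  obtain ⟨a, b, hab, hab0⟩ : ∃ a b : K, ((a, b), ((0 : K), (0 : K))) ∈ X ∧ ¬ (a = 0 ∧ b = 0) := by
    obtain ⟨g1, g2⟩ := mB_mem h2 X hB _ _ _ _ hv
    by_cases h0 : x = 0 ∧ y = 0
    · refine ⟨z, w, f2 _ _ g2, ?_⟩
      intro h3
      apply hv0
      rw [h0.1, h0.2, h3.1, h3.2]
      rfl
    · exact ⟨x, y, g1, h0⟩
  have hJ := (f1 a b hab).1
  -- determinant a^2 - c b^2 ≠ 0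
  have hdet : a ^ 2 - c * b ^ 2 ≠ 0 := by
    intro h
    by_cases hb : b = 0
    · apply hab0
      refine ⟨?_, hb⟩
      rw [hb] at h
      simpa using h
    · apply hc
      refine ⟨a / b, ?_⟩
      field_simp
      linear_combination -h
  have all1 : ∀ x y : K, ((x, y), ((0 : K), (0 : K))) ∈ X := by
    intro x y
    have h3 := X.add_mem (X.smul_mem ((a * x - c * b * y) / (a ^ 2 - c * b ^ 2)) hab)
      (X.smul_mem ((a * y - b * x) / (a ^ 2 - c * b ^ 2)) hJ)
    have : ((a * x - c * b * y) / (a ^ 2 - c * b ^ 2)) • ((a, b), ((0 : K), (0 : K)))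
        + ((a * y - b * x) / (a ^ 2 - c * b ^ 2)) • ((c * b, a), ((0 : K), (0 : K)))
        = ((x, y), ((0 : K), (0 : K))) := by
      ext <;> simp
      · field_simp; ring
      · field_simp; ring
    rwa [this] at h3
  rw [eq_top_iff]
  rintro ⟨⟨x, y⟩, ⟨z, w⟩⟩ _
  have h3 := X.add_mem (all1 x y) ((f1 z w (all1 z w)).2)
  have : ((x, y), ((0 : K), (0 : K))) + (((0 : K), (0 : K)), (z, w)) = ((x, y), (z, w)) := by
    ext <;> simp
  rwa [this] at h3

theorem mS_inj (c1 : 1 - c ≠ 0) (v w : V4 K) (h : mS c v = mS c w) : v = w := by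
  simp only [mS_apply, Prod.mk.injEq] at h
  obtain ⟨⟨h1, h2⟩, h3, h4⟩ := h
  have e1 := mul_left_cancel₀ c1 h1
  have e2 := mul_left_cancel₀ c1 h2
  rw [e2] at h3
  rw [e1] at h4
  ext
  · linear_combination h3
  · linear_combination h4
  · exact e1
  · exact e2

theorem mS_surj (c1 : 1 - c ≠ 0) (v : V4 K) : ∃ w, mS c w = v := by
  refine ⟨((v.2.1 + 2 * c * (v.1.2 / (1 - c)), v.2.2 + 2 * (v.1.1 / (1 - c))),
    (v.1.1 / (1 - c), v.1.2 / (1 - c))), ?_⟩
  simp only [mS_apply]
  ext <;> simp
  · field_simp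
  · field_simp

theorem adm (h2 : (2 : K) ≠ 0) (c1 : 1 - c ≠ 0) :
    IsAdmissible (d := 1) (mS c) (eU (mA c)) (eU mB) := by
  have hU : ∀ i, (eU (mA c) i).map (mS c) = eU (mA c) i := by
    intro i
    ext v
    rw [Submodule.mem_map]
    constructor
    · rintro ⟨w, hw, rfl⟩
      simp only [eU, Module.End.mem_eigenspace_iff] at hw ⊢
      rw [comm, hw, map_smul]
    · intro hv
      obtain ⟨w, hw⟩ := mS_surj c c1 v
      refine ⟨w, ?_, hw⟩
      simp only [eU, Module.End.mem_eigenspace_iff] at hv ⊢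
      apply mS_inj c c1
      rw [← comm, hw, map_smul, hw, hv]
  have hn : ¬ (1 : Fin 2) = 0 := by decide
  have hW : (eU (mB : Module.End K (V4 K)) 0).map (mS c) = eU mB 1 := by
    ext v
    rw [Submodule.mem_map]
    constructor
    · rintro ⟨w, hw, rfl⟩
      simp only [eU, if_pos, if_neg hn, Module.End.mem_eigenspace_iff, one_smul] at hw ⊢
      rw [mB_apply] at hw
      have g1 : -w.2.1 = w.2.1 := congrArg (fun v : V4 K => v.2.1) hw
      have g2 : -w.2.2 = w.2.2 := congrArg (fun v : V4 K => v.2.2) hw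
      have g3 : w.2.1 = 0 := by
        have : (2 : K) * w.2.1 = 0 := by linear_combination -g1
        exact (mul_eq_zero.mp this).resolve_left h2
      have g4 : w.2.2 = 0 := by
        have : (2 : K) * w.2.2 = 0 := by linear_combination -g2
        exact (mul_eq_zero.mp this).resolve_left h2
      rw [mS_apply, mB_apply]
      ext <;> simp [g3, g4]
    · intro hv
      simp only [eU, if_neg hn, Module.End.mem_eigenspace_iff] at hv
      rw [mB_apply] at hv
      have g1 : v.1.1 = -v.1.1 := by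
        have := congrArg (fun v : V4 K => v.1.1) hv
        simpa using this
      have g2 : v.1.2 = -v.1.2 := by
        have := congrArg (fun v : V4 K => v.1.2) hv
        simpa using this
      have g3 : v.1.1 = 0 := by
        have : (2 : K) * v.1.1 = 0 := by linear_combination g1
        exact (mul_eq_zero.mp this).resolve_left h2
      have g4 : v.1.2 = 0 := by
        have : (2 : K) * v.1.2 = 0 := by linear_combination g2
        exact (mul_eq_zero.mp this).resolve_left h2
      refine ⟨(v.2, (0, 0)), ?_, ?_⟩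
      · simp only [eU, if_pos, Module.End.mem_eigenspace_iff, one_smul]
        rw [mB_apply]
        ext <;> simp
      · rw [mS_apply]
        ext <;> simp [g3, g4]
  have hBtop : ⨆ i, eU (mB : Module.End K (V4 K)) i = ⊤ := invol_sup h2 mB mB_sq
  intro i
  refine ⟨hU i, ?_⟩
  fin_cases i
  · have e1 : (⨆ j : {j : Fin (1 + 1) // j.val ≤ (0 : Fin (1 + 1)).val}, eU (mB : Module.End K (V4 K)) j.val)
        = eU mB 0 := by
      apply le_antisymm
      · apply iSup_le
        rintro ⟨j, hj⟩
        have : j = 0 := Fin.ext (by simpa using hj)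
        exact le_of_eq (congrArg (eU (mB : Module.End K (V4 K))) this)
      · exact le_iSup (fun j : {j : Fin (1 + 1) // j.val ≤ (0 : Fin (1 + 1)).val} =>
          eU (mB : Module.End K (V4 K)) j.val) ⟨0, le_refl _⟩
    have e2 : (⨆ j : {j : Fin (1 + 1) // 1 - (0 : Fin (1 + 1)).val ≤ j.val}, eU (mB : Module.End K (V4 K)) j.val)
        = eU mB 1 := by
      apply le_antisymm
      · apply iSup_le
        rintro ⟨j, hj⟩
        have : j = 1 := Fin.ext (by
          have : 1 ≤ j.val := by simpa using hj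
          have h3 := j.isLt
          show j.val = 1
          omega)
        exact le_of_eq (congrArg (eU (mB : Module.End K (V4 K))) this)
      · exact le_iSup (fun j : {j : Fin (1 + 1) // 1 - (0 : Fin (1 + 1)).val ≤ j.val} =>
          eU (mB : Module.End K (V4 K)) j.val) ⟨1, by simp⟩
    exact (congrArg (Submodule.map (mS c)) e1).trans (hW.trans e2.symm)
  · have e1 : (⨆ j : {j : Fin (1 + 1) // j.val ≤ (1 : Fin (1 + 1)).val}, eU (mB : Module.End K (V4 K)) j.val)
        = ⊤ := by
      rw [eq_top_iff, ← hBtop]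
      apply iSup_le
      intro j
      exact le_iSup (fun j : {j : Fin (1 + 1) // j.val ≤ (1 : Fin (1 + 1)).val} =>
          eU (mB : Module.End K (V4 K)) j.val) ⟨j, by show j.val ≤ 1; omega⟩
    have e2 : (⨆ j : {j : Fin (1 + 1) // 1 - (1 : Fin (1 + 1)).val ≤ j.val}, eU (mB : Module.End K (V4 K)) j.val)
        = ⊤ := by
      rw [eq_top_iff, ← hBtop]
      apply iSup_le
      intro j
      exact le_iSup (fun j : {j : Fin (1 + 1) // 1 - (1 : Fin (1 + 1)).val ≤ j.val} =>
          eU (mB : Module.End K (V4 K)) j.val) ⟨j, by show 1 - 1 ≤ j.val; omega⟩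
    have e3 : (⊤ : Submodule K (V4 K)).map (mS c) = ⊤ := by
      rw [eq_top_iff]
      intro v _
      obtain ⟨w, hw⟩ := mS_surj c c1 v
      exact ⟨w, trivial, hw⟩
    exact (congrArg (Submodule.map (mS c)) e1).trans (e3.trans e2.symm)

theorem notDiag (h2 : (2 : K) ≠ 0) (hc : ¬ IsSquare c) (c1 : 1 - c ≠ 0) :
    ¬ IsDiagonalizable (mS c) := by
  have key : ∀ a : K, (mS c).eigenspace a = ⊥ := by
    intro a
    rw [eq_bot_iff]
    intro v hv
    rw [Module.End.mem_eigenspace_iff, mS_apply] at hv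
    have g1 : (1 - c) * v.2.1 = a * v.1.1 := congrArg (fun v : V4 K => v.1.1) hv
    have g2 : (1 - c) * v.2.2 = a * v.1.2 := congrArg (fun v : V4 K => v.1.2) hv
    have g3 : v.1.1 - 2 * c * v.2.2 = a * v.2.1 := congrArg (fun v : V4 K => v.2.1) hv
    have g4 : v.1.2 - 2 * v.2.1 = a * v.2.2 := congrArg (fun v : V4 K => v.2.2) hv
    -- (1 - c - a^2) z = 2 a c w, (1 - c - a^2) w = 2 a z
    have e1 : (1 - c - a ^ 2) * v.2.1 = 2 * a * c * v.2.2 := by linear_combination g1 + a * g3
    have e2 : (1 - c - a ^ 2) * v.2.2 = 2 * a * v.2.1 := by linear_combination g2 + a * g4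
    have e3 : v.2.1 = 0 ∧ v.2.2 = 0 := by
      by_cases ha : a = 0
      · subst ha
        constructor
        · have : (1 - c) * v.2.1 = 0 := by linear_combination e1
          exact (mul_eq_zero.mp this).resolve_left c1
        · have : (1 - c) * v.2.2 = 0 := by linear_combination e2
          exact (mul_eq_zero.mp this).resolve_left c1
      · have ha2 : 2 * a ≠ 0 := mul_ne_zero h2 ha
        by_cases hw : v.2.2 = 0
        · refine ⟨?_, hw⟩
          rw [hw] at e2
          have : (2 * a) * v.2.1 = 0 := by linear_combination -e2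
          exact (mul_eq_zero.mp this).resolve_left ha2
        · exfalso
          apply hc
          refine ⟨(1 - c - a ^ 2) / (2 * a), ?_⟩
          have e4 : (1 - c - a ^ 2) ^ 2 * v.2.2 = (2 * a) ^ 2 * c * v.2.2 := by
            linear_combination (1 - c - a ^ 2) * e2 + 2 * a * e1
          have e5 : (1 - c - a ^ 2) ^ 2 = (2 * a) ^ 2 * c := mul_right_cancel₀ hw e4
          field_simp
          linear_combination -e5
    obtain ⟨z0, w0⟩ := e3
    rw [z0, w0] at g3 g4
    rw [Submodule.mem_bot]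
    ext
    · simpa using g3
    · simpa using g4
    · exact z0
    · exact w0
  intro h
  unfold IsDiagonalizable at h
  simp only [key, iSup_bot] at h
  have : (((1 : K), (0 : K)), ((0 : K), (0 : K))) ∈ (⊥ : Submodule K (V4 K)) := by rw [h]; trivial
  rw [Submodule.mem_bot] at this
  have h3 := congrArg (fun v : V4 K => v.1.1) this
  simp at h3

end

/-- Over every field `K` of characteristic different from `2` which is not quadratically closed
(for example `ℝ` or `ℚ`) there is a tridiagonal pair with an admissible map `S` that is not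
diagonalizable. -/
theorem result (K : Type) [Field K] (h2 : (2 : K) ≠ 0) (hK : ∃ c : K, ¬ IsSquare c) :
    Fails K := by
  obtain ⟨c, hc⟩ := hK
  have c1 : 1 - c ≠ 0 := by
    intro h; apply hc; exact ⟨1, by linear_combination -h⟩
  refine ⟨V4 K, inferInstance, inferInstance, inferInstance, mA c, mB, 1, eU (mA c), eU mB, mS c,
    ⟨?_, ?_, ?_, ?_, irr c h2 hc⟩, adm c h2 c1, notDiag c h2 hc c1⟩
  · apply eigenOrd h2 (mA c) (mA_sq c) ((1, 0), (0, 0)) ((1, 0), (0, 0))
    · intro h
      have := congrArg (fun v : V4 K => v.1.1) h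
      simp [mA_apply] at this
    · intro h
      have := congrArg (fun v : V4 K => v.1.1) h
      simp [mA_apply] at this
  · apply eigenOrd h2 mB mB_sq ((1, 0), (0, 0)) ((0, 0), (1, 0))
    · intro h
      have := congrArg (fun v : V4 K => v.1.1) h
      simp [mB_apply] at this
      apply h2
      linear_combination this
    · intro h
      have := congrArg (fun v : V4 K => v.2.1) h
      simp [mB_apply] at this
      apply h2
      linear_combination this
  · exact actsTri (mA c) mB (invol_sup h2 _ (mA_sq c))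
  · exact actsTri mB (mA c) (invol_sup h2 _ mB_sq)

end Pool.Agent.Results.MP_6ebba1_al.NotDiagonalizable
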